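import Pool.Agent.Helper41.Proj
import Pool.Agent.Helper41.GridChain
import Pool.Agent.Helper41.GridUpper

set_option autoImplicit false

open MeasureTheory Filter Topology

namespace Pool.Agent.Results.MP_8eb1e4_pr.FullAnswer

/-- Let `d` be 2 or 3 and let `B` be a `d`-dimensional Brownian sheet with almost surely
continuous paths on the closed quadrant (the law is prescribed by the characteristic functions of
the finite dimensional marginals). Then almost surely, simultaneously for all directions `θ`, the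
projection of the zero set in the open quadrant has Hausdorff dimension `2 - d / 2`. -/
theorem result :
    ∀ d : ℕ, (d = 2 ∨ d = 3) →
    ∀ (Ω : Type) [MeasurableSpace Ω] (P : Measure Ω) [IsProbabilityMeasure P]
      (B : ℝ × ℝ → Ω → (Fin d → ℝ)),
      (∀ p, Measurable (B p)) →
      (∀ᵐ ω ∂P, ContinuousOn (fun p => B p ω) (Set.Ici (0:ℝ) ×ˢ Set.Ici (0:ℝ))) →
      (∀ (n : ℕ) (p : Fin n → ℝ × ℝ) (a : Fin n → Fin d → ℝ),
        (∀ i, 0 ≤ (p i).1 ∧ 0 ≤ (p i).2) →
        ∫ ω, Complex.exp (Complex.I * ((∑ i, ∑ k, a i k * B (p i) ω k : ℝ) : ℂ)) ∂P =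
          Complex.exp (((-(1/2) * ∑ i, ∑ j, (∑ k, a i k * a j k) *
              min (p i).1 (p j).1 * min (p i).2 (p j).2 : ℝ) : ℂ))) →
      ∀ᵐ ω ∂P, ∀ θ : ℝ,
        dimH ((fun x : ℝ × ℝ => x.1 * Real.cos θ + x.2 * Real.sin θ) ''
          {p : ℝ × ℝ | 0 < p.1 ∧ 0 < p.2 ∧ B p ω = 0}) = ENNReal.ofReal (2 - (d : ℝ) / 2) := by
  intro d hd Ω _ P _ B hmeas hcont hchar
  have hS := Helper41.toX_isSheet P B hmeas hchar
  have hc : ∀ᵐ ω ∂P, ∀ c, Continuous
      (fun p : NNReal × NNReal => Helper41.toX B (c, p.1, p.2) ω) := by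
    filter_upwards [hcont] with ω hω c
    exact Helper41.toX_cont B hω c
  have hcard : 2 ≤ Fintype.card (Fin d) := by
    rw [Fintype.card_fin]
    omega
  have hd' : (d : ℝ) ≤ 3 := by
    have : d ≤ 3 := by omega
    exact_mod_cast this
  -- the dimension value
  set α : NNReal := (2 - (d : ℝ) / 2).toNNReal with hα
  have hαc : (α : ℝ) = 2 - (d : ℝ) / 2 := Real.coe_toNNReal _ (by linarith)
  have hαpos : (0 : ℝ) < α := by rw [hαc]; linarith
  have hα2 : (1 : ℝ) / 2 ≤ α := by rw [hαc]; linarith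
  have hlow : ∀ᵐ ω ∂P, ∀ n : ℕ, ((α - 1 / ((n : NNReal) + 3) : NNReal) : ENNReal) ≤
      dimH (Helper41.ZZ (Helper41.toX B) ω) := by
    rw [ae_all_iff]
    intro n
    have hn3 : (1 : ℝ) / ((n : ℝ) + 3) ≤ 1 / 3 := by
      have : (0 : ℝ) ≤ n := Nat.cast_nonneg n
      gcongr
      linarith
    have hle : (1 : NNReal) / ((n : NNReal) + 3) ≤ α := by
      rw [← NNReal.coe_le_coe]
      push_cast
      linarith
    have hn3' : (0 : ℝ) < 1 / ((n : ℝ) + 3) := by positivity
    have hco : ((α - 1 / ((n : NNReal) + 3) : NNReal) : ℝ) = α - 1 / ((n : ℝ) + 3) := by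
      rw [NNReal.coe_sub hle]
      push_cast
      rfl
    refine hS.ae_dimH_ge (by omega) hc (s := α - 1 / ((n : NNReal) + 3)) ?_ ?_
    · rw [← NNReal.coe_pos, hco]
      linarith
    · rw [hco, hαc, Fintype.card_fin]
      linarith
  have hup : ∀ᵐ ω ∂P, ∀ n : ℕ, dimH (Helper41.ZZ (Helper41.toX B) ω) ≤
      ((α + 1 / ((n : NNReal) + 3) : NNReal) : ENNReal) := by
    rw [ae_all_iff]
    intro n
    have hn3' : (0 : ℝ) < 1 / ((n : ℝ) + 3) := by positivity
    refine hS.ae_dimH_le hc (s := α + 1 / ((n : NNReal) + 3)) (by positivity) ?_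
    rw [Fintype.card_fin]
    push_cast
    rw [hαc]
    linarith
  have hlim : Tendsto (fun n : ℕ => (1 : NNReal) / ((n : NNReal) + 3)) atTop (𝓝 0) := by
    rw [← NNReal.tendsto_coe]
    have h4 : Tendsto (fun n : ℕ => (1 : ℝ) / ((n : ℝ) + 3)) atTop (𝓝 0) := by
      refine Tendsto.div_atTop tendsto_const_nhds ?_
      exact tendsto_atTop_add_const_right _ _ tendsto_natCast_atTop_atTop
    simpa using h4
  filter_upwards [hS.ae_dimH_proj hcard hc, hlow, hup] with ω hω hω1 hω2 θ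
  rw [← Helper41.emb_image_ZZ, hω θ, Helper41.isometry_emb.dimH_image]
  have e : ENNReal.ofReal (2 - (d : ℝ) / 2) = (α : ENNReal) := rfl
  rw [e]
  refine le_antisymm ?_ ?_
  · have h2 : Tendsto (fun n : ℕ => ((α + 1 / ((n : NNReal) + 3) : NNReal) : ENNReal)) atTop
        (𝓝 ((α + 0 : NNReal) : ENNReal)) :=
      ENNReal.tendsto_coe.2 (tendsto_const_nhds.add hlim)
    rw [add_zero] at h2
    exact ge_of_tendsto h2 (Eventually.of_forall hω2)
  · have h2 : Tendsto (fun n : ℕ => ((α - 1 / ((n : NNReal) + 3) : NNReal) : ENNReal)) atTop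
        (𝓝 ((α - 0 : NNReal) : ENNReal)) :=
      ENNReal.tendsto_coe.2 (tendsto_const_nhds.sub hlim)
    rw [tsub_zero] at h2
    exact le_of_tendsto h2 (Eventually.of_forall hω1)

end Pool.Agent.Results.MP_8eb1e4_pr.FullAnswer
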